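import Pool.Agent.Lib.K3E.Blue
import Pool.Agent.Lib.IDX.Blue

/-! Row IDX: the bridge. -/

open scoped Topology Matrix
open Set Filter

noncomputable section

namespace Pool.Agent.Lib.K3E

open Pool.Agent.Lib.HS32 Pool.Agent.Lib.HLK

namespace IDX

open Classical in
theorem rk {n : ℕ} {M : Mf n} (H : M.Fam (Mat n)) (a q : ℕ) :
    Module.finrank ℂ (hs H a q) = Module.finrank ℂ (IDX.hl (lk H a) (· = q)) := by
  let ev : IDX.hl (lk H a) (· = q) →ₗ[ℂ] M.X → Fs n → ℂ :=
    { toFun := fun W => M.ev W.1, map_add' := fun _ _ => rfl, map_smul' := fun _ _ => rfl }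
  have h1 : Function.Injective ev := (injective_iff_map_eq_zero _).2 fun W h =>
    Subtype.ext (funext fun e => funext fun z => funext fun A => by_contra fun c => by
      obtain ⟨he, hz, -⟩ := W.2.2.2 e z A c
      have e1 := W.2.1.cmp e he _ (Mf.ch_mem _) _ (e.map_target hz) (Mf.mem_ch _)
      have e2 : W.1 (M.ch (e.symm z)) (M.ch (e.symm z) (e.symm z)) = 0 := congrFun h (e.symm z)
      beta_reduce at e1
      rw [e.right_inv hz, e2, Matrix.mulVec_zero] at e1
      exact c (congrFun e1 A))
  have h2 : hs H a q = LinearMap.range ev := by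
    refine le_antisymm (Submodule.span_le.2 ?_) ?_
    · rintro _ ⟨W, w1, w2, w3, rfl⟩
      let W' : M.Fam (Fs n → ℂ) := fun e z => if e ∈ M.C ∧ z ∈ e.target then W e z else 0
      have p : M.All fun e z => W' e z = W e z := fun e he z hz => if_pos ⟨he, hz⟩
      refine ⟨⟨W', ⟨fun e he z hz => (w1.sm e he z hz).congr_of_eventuallyEq (p.ev he hz),
        fun e he e' he' x hx hx' => ?_⟩, fun e he z hz i => ?_, fun e z A h => ?_⟩, Mf.ev_congr p⟩
      · beta_reduce
        rw [p e he _ (e.map_source hx), p e' he' _ (e'.map_source hx')]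
        exact w1.cmp e he e' he' x hx hx'
      · filter_upwards [w2 e he z hz i, (p.ev he hz).eventually_nhds] with w k1 k2
        exact k1.congr_of_eventuallyEq (k2.mono fun y hy => congrFun hy i)
      · by_cases c : e ∈ M.C ∧ z ∈ e.target
        · exact ⟨c.1, c.2, by_contra fun d => h ((congrFun (p e c.1 z c.2) A).trans (w3 e z A d))⟩
        · exact (h (congrFun (if_neg c) A)).elim
    · rintro _ ⟨W, rfl⟩
      exact Submodule.subset_span ⟨W.1, W.2.1, W.2.2.1,
        fun e z A d => by_contra fun c => d (W.2.2.2 e z A c).2.2, rfl⟩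
  rw [h2, LinearMap.finrank_range_of_inj h1]

end IDX

theorem bIDX (hI : IDX.St_IDX) (hKAN : St_KAN) : St_IDX := fun n M _ H hn hH h => by
  have w := fun a => (hKAN n M H a hH.toMet).1
  have h1 := (hI n M H (fun b => kan M (b + 1)) (fun b => wk H (b + 1)) (kan M 1) (wk H 1) hn hH
    ⟨w _, fun e _ e' _ x _ _ => by simp [kan, triv, Mf.Co.tw], fun e _ z _ => by simp [wk]⟩
    fun b => ⟨w _, w _, w _, fun e _ e' _ x _ _ => by simp [kan, triv, Mf.Co.tw, pow_succ],
      fun e _ z _ => by simp only [wk]; push_cast; ring⟩).2 fun c => h (by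
        simp only [chi, IDX.rk]
        exact c)
  exact (h1.image (add_left_injective 1).injOn).mono (by rintro _ ⟨b, hb, rfl⟩; exact hb)

end Pool.Agent.Lib.K3E
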