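import Pool.Agent.Lib.K3E.Blue

/-! Project k3e, row ID: the identity theorem for twisted sections. -/

open scoped Classical Topology Matrix
open Set Filter Metric

noncomputable section

namespace Pool.Agent.Lib.K3E

open Pool.Agent.Lib.SV (E)
open Pool.Agent.Lib.HS32 Pool.Agent.Lib.HLK

namespace ID

theorem bal {n : ℕ} {f : E n → ℂ} {c y w : E n} {r : ℝ}
    (hf : ∀ v ∈ ball c r, DifferentiableAt ℂ f v) (hy : y ∈ ball c r) (hw : w ∈ ball c r)
    (h0 : ∀ᶠ v in 𝓝 y, f v = 0) : f w = 0 := by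
  have hL : Differentiable ℂ fun t : ℂ => y + t • (w - y) := by fun_prop
  have hO : IsOpen ((fun t : ℂ => y + t • (w - y)) ⁻¹' ball c r) :=
    isOpen_ball.preimage hL.continuous
  have hC : Convex ℝ ((fun t : ℂ => y + t • (w - y)) ⁻¹' ball c r) := fun s hs t ht a b ha hb hab => by
    have := convex_ball c r hs ht ha hb hab
    refine mem_preimage.2 (Eq.subst (motive := fun v => v ∈ ball c r) ?_ this)
    rw [smul_add, smul_add, add_add_add_comm, ← add_smul, hab, one_smul, add_smul, smul_assoc,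
      smul_assoc]
  have hA : AnalyticOnNhd ℂ (fun t : ℂ => f (y + t • (w - y)))
      ((fun t : ℂ => y + t • (w - y)) ⁻¹' ball c r) :=
    DifferentiableOn.analyticOnNhd
      (fun t ht => ((hf _ ht).comp t (hL t)).differentiableWithinAt) hO
  have h1 : Tendsto (fun t : ℂ => y + t • (w - y)) (𝓝 0) (𝓝 y) :=
    hL.continuous.tendsto' 0 y (by simp)
  have h2 := hA.eqOn_zero_of_preconnected_of_eventuallyEq_zero hC.isPreconnected (z₀ := 0)
    (by simpa using hy) (h1.eventually h0) (x := 1) (by simpa using hw)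
  simpa using h2

end ID

theorem bID : St_ID := by
  intro n M _ σ _ T a W hW
  have tr : ∀ e ∈ M.C, ∀ e' ∈ M.C, ∀ x ∈ e.source, x ∈ e'.source →
      (∀ᶠ y in 𝓝 x, W e' (e' y) = 0) → ∀ᶠ y in 𝓝 x, W e (e y) = 0 := fun e he e' he' x hx hx' h => by
    filter_upwards [h, e.open_source.mem_nhds hx, e'.open_source.mem_nhds hx'] with y h1 h2 h3
    have h4 := hW.cmp e he e' he' y h2 h3
    beta_reduce at h4
    rw [h4, h1, Matrix.mulVec_zero, smul_zero]
  have up : ∀ e : M.Ch, ∀ x ∈ e.source, (∀ᶠ w in 𝓝 (e x), W e w = 0) →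
      ∀ᶠ y in 𝓝 x, W e (e y) = 0 := fun e x hx h => (e.continuousAt hx).eventually h
  have dn : ∀ e : M.Ch, ∀ x ∈ e.source, (∀ᶠ y in 𝓝 x, W e (e y) = 0) →
      ∀ᶠ w in 𝓝 (e x), W e w = 0 := fun e x hx h => by
    filter_upwards [(e.tendsto_symm hx).eventually h,
      e.open_target.mem_nhds (e.map_source hx)] with w h1 h2
    rwa [e.right_inv h2] at h1
  let Z : Set M.X := {x | ∃ e ∈ M.C, x ∈ e.source ∧ ∀ᶠ y in 𝓝 x, W e (e y) = 0}
  have hO : IsOpen Z := isOpen_iff_mem_nhds.2 fun x ⟨e, he, hx, h⟩ => by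
    filter_upwards [h.eventually_nhds, e.open_source.mem_nhds hx] with y h1 h2
    exact ⟨e, he, h2, h1⟩
  have hC : IsClosed Z := isClosed_of_closure_subset fun x hx => by
    obtain ⟨e, he, hs⟩ := M.cov x
    obtain ⟨r, r0, hr⟩ := Metric.eventually_nhds_iff_ball.1
      (eventually_all.2 (hW.hol e he _ (e.map_source hs)))
    have hb := (e.continuousAt hs).eventually (ball_mem_nhds _ r0)
    obtain ⟨y, ⟨y1, y2⟩, e', he', y3, y4⟩ := mem_closure_iff_nhds.1 hx _
      (hb.and (e.open_source.mem_nhds hs))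
    have h5 := dn e y y2 (tr e he e' he' y y2 y3 y4)
    exact ⟨e, he, hs, hb.mono fun v hv => funext fun i => ID.bal (f := fun w => W e w i)
      (fun u hu => hr u hu i) y1 hv (h5.mono fun u hu => congrFun hu i)⟩
  intro e he z hz
  by_contra hn
  have h0 : ∀ᶠ w in 𝓝 z, W e w = 0 := by
    have : ∀ i, ∀ᶠ w in 𝓝 z, W e w i = 0 := fun i => by
      simpa [not_frequently] using not_exists.1 hn i
    exact (eventually_all.2 this).mono fun w hw => funext hw
  have hZ : Z = univ := IsClopen.eq_univ ⟨hC, hO⟩ ⟨e.symm z, e, he, e.map_target hz,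
    up e _ (e.map_target hz) (by rwa [e.right_inv hz])⟩
  obtain ⟨c, hc, w, hw, h⟩ := hW.nz
  obtain ⟨e', he', k1, k2⟩ : c.symm w ∈ Z := hZ ▸ mem_univ _
  have h6 := (tr c hc e' he' _ (c.map_target hw) k1 k2).self_of_nhds
  rw [c.right_inv hw] at h6
  exact h h6

end Pool.Agent.Lib.K3E
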