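import Pool.Agent.Lib.K3E.Blue

/-! The expansion of Laplace. -/

open scoped Classical Matrix

noncomputable section

namespace Pool.Agent.Lib.K3E

open Pool.Agent.Lib.HS32 Pool.Agent.Lib.HLK

namespace STAR

variable {n : ℕ}

theorem la_eq (g : Mat n) {A B : Fs n} {k : ℕ} (hA : A.card = k) (hB : B.card = k) :
    La g A B = (g.submatrix (A.orderEmbOfFin hA) (B.orderEmbOfFin hB)).det := by
  subst hA
  exact dif_pos hB

theorem la_ne (g : Mat n) {A B : Fs n} (h : B.card ≠ A.card) : La g A B = 0 := dif_neg h

theorem la_tr (g : Mat n) : (La g)ᵀ = La gᵀ := by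
  ext A B
  by_cases h : B.card = A.card
  · rw [Matrix.transpose_apply, la_eq g h rfl, la_eq gᵀ rfl h, ← Matrix.transpose_submatrix,
      Matrix.det_transpose]
  · rw [Matrix.transpose_apply, la_ne g (Ne.symm h), la_ne _ h]

theorem la_univ (g : Mat n) (A : Fs n) :
    La g A Finset.univ = if A = Finset.univ then g.det else 0 := by
  split_ifs with h
  · have c : (Finset.univ : Fs n).card = n := Finset.card_fin n
    have e : id = ⇑((Finset.univ : Fs n).orderEmbOfFin c) :=
      Finset.orderEmbOfFin_unique c (fun _ => Finset.mem_univ _) strictMono_id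
    rw [h, la_eq g c c, ← e, Matrix.submatrix_id_id]
  · exact la_ne g fun c => h (Finset.eq_univ_of_card _ c.symm)

theorem sign (k : Fin n) (B : Fs n) :
    ((Bᶜ.erase k).filter (· < k)).card + (B.filter (· < k)).card = k := by
  rw [← Finset.card_union_of_disjoint, ← Fin.card_Iio k]
  · refine congrArg _ (Finset.ext fun x => ?_)
    by_cases h : x < k
    · simp [h, h.ne, em' (x ∈ B)]
    · simp [h]
  · rw [Finset.disjoint_left]
    intro x h h'
    simp only [Finset.mem_filter, Finset.mem_erase, Finset.mem_compl] at h h'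
    exact h.1.2 h'.1

theorem star_cr (k : Fin n) : star n * cr k = an k * star n := by
  ext A B
  rw [Matrix.mul_apply, Matrix.mul_apply, Finset.sum_eq_single (insert k B),
    Finset.sum_eq_single Bᶜ]
  · simp only [star, cr, an, Matrix.conjTranspose_apply, Matrix.of_apply, and_true, if_true]
    by_cases hk : k ∈ B
    · have : ¬(k ∉ A ∧ Bᶜ = insert k A) := fun h =>
        Finset.mem_compl.1 (h.2 ▸ Finset.mem_insert_self k A) hk
      simp [hk, this]
    · by_cases hA : A = Bᶜ.erase k
      · have h1 : k ∉ A ∧ Bᶜ = insert k A := by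
          rw [hA]
          exact ⟨Finset.notMem_erase _ _, (Finset.insert_erase (Finset.mem_compl.2 hk)).symm⟩
        have s := sign k B
        rw [← hA] at s
        rw [if_pos (hA.trans Finset.compl_insert.symm), if_pos hk, if_pos h1,
          Finset.sum_insert hk, star_pow, star_neg, star_one, ← s, pow_add, pow_add]
        have q : ((-1 : ℂ) ^ (B.filter (· < k)).card) ^ 2 = 1 := by
          rw [← pow_mul, mul_comm, pow_mul, neg_one_sq, one_pow]
        linear_combination (-1) ^ (A.filter (· < k)).card * (-1) ^ (∑ b ∈ B, (b : ℕ)) * q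
      · have h1 : ¬(k ∉ A ∧ Bᶜ = insert k A) := fun h => hA (by rw [h.2, Finset.erase_insert h.1])
        rw [if_neg (fun h => hA (h.trans Finset.compl_insert)), if_neg h1]
        simp
  · intro C _ h
    simp [star, h]
  · simp
  · intro C _ h
    simp [cr, h]
  · simp

end STAR

open STAR in
theorem bSTAR (hFK1 : St_FK1) (hFK2 : St_FK2) : St_STAR := fun n g => by
  rw [la_tr, ← sub_eq_zero]
  refine (hFK1 n).2 _ an (fun k => ?_) fun A => ?_
  · rw [sub_mul, mul_sub, smul_mul_assoc, mul_smul_comm, star_cr, mul_assoc _ (La gᵀ),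
      ((hFK2 n).2 gᵀ).2.2.2.1 k, ← mul_assoc (an k), ← mul_assoc (an k),
      ((hFK2 n).2 g).2.2.2.2.1 k, Finset.mul_sum, Finset.sum_mul, Finset.sum_mul]
    refine congrArg (· - _) (Finset.sum_congr rfl fun i _ => ?_)
    rw [mul_smul_comm, smul_mul_assoc, smul_mul_assoc, Matrix.transpose_apply, ← mul_assoc,
      mul_assoc (La g), star_cr, ← mul_assoc]
  · simp only [Matrix.sub_apply, Matrix.mul_apply, Matrix.smul_apply, ((hFK2 n).2 gᵀ).2.1,
      mul_ite, mul_one, mul_zero, Finset.sum_ite_eq', Finset.mem_univ, if_true, star,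
      Matrix.of_apply, Finset.compl_empty, Finset.sum_empty, pow_zero, la_univ, smul_eq_mul,
      sub_self]

end Pool.Agent.Lib.K3E
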