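import Pool.Agent.Lib.K3E.Blue

/-! The weight of the powers of the canonical bundle. -/

open scoped Classical Matrix

noncomputable section

namespace Pool.Agent.Lib.K3E

open Pool.Agent.Lib.HS32

theorem bKAN : St_KAN := fun n M H a hH => by
  have w := (mINV n M H hH).2.2.2.2.2.2.1
  obtain ⟨-, h1, h2⟩ := (mHES n M).2.2.2.2.1 _ _ _ _ (a : ℝ) w w
  refine ⟨⟨h1.sm, fun e he e' he' x hx hx' => ?_⟩, fun e he z hz => ?_⟩
  · refine (h1.cmp e he e' he' x hx hx').trans ?_
    show _ = _ + Real.log (Complex.normSq ((M.J e e' x).det ^ a * 1))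
    rw [mul_one, mul_one, map_pow, Real.log_pow]
    rfl
  · refine (h2 e he z hz).2.trans ?_
    rw [← smul_neg, Mf.ric, neg_neg]
    rfl

end Pool.Agent.Lib.K3E
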