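import Pool.Agent.Lib.HLK.Blue

/-! Project k3e: the powers of the canonical bundle and the spaces of holomorphic multivectors. -/

open scoped Classical Topology ContDiff ComplexOrder Matrix
open Set Filter

noncomputable section

namespace Pool.Agent.Lib.K3E

open Pool.Agent.Lib.SV (E)
open Pool.Agent.Lib.HS32 Pool.Agent.Lib.HLK

variable {n : ℕ}

/-- The trivial bundle. -/
def triv (M : Mf n) : M.Co where
  c _ _ _ := 1
  hol _ _ _ _ _ _ _ := Eventually.of_forall fun _ => differentiableAt_const _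
  ne _ _ _ _ _ _ _ := one_ne_zero
  mul _ _ _ _ _ _ _ _ _ _ := (mul_one 1).symm

/-- The `a`-th power of the canonical bundle. -/
def kan (M : Mf n) (a : ℕ) : M.Co := (triv M).tw a

variable {M : Mf n}

/-- The weight induced by a metric. -/
def wk (H : M.Fam (Mat n)) (a : ℕ) : M.Fam ℝ := fun e z => a * Real.log (H e z).det.re

/-- The multivectors with values in `a K`. -/
abbrev lk (H : M.Fam (Mat n)) (a : ℕ) : Bun M (Fs n) := lam H (kan M a) (wk H a)

/-- The values of the holomorphic `q`-vectors with values in `a K`. -/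
def hs (H : M.Fam (Mat n)) (a q : ℕ) : Submodule ℂ (M.X → Fs n → ℂ) :=
  Submodule.span ℂ {f | ∃ W, (lk H a).Sec W ∧ Hol W ∧ Deg q W ∧ f = M.ev W}

/-- The alternating sum of the dimensions. -/
def chi (H : M.Fam (Mat n)) (a : ℕ) : ℤ :=
  ∑ q ∈ Finset.range (n + 1), (-1) ^ q * (Module.finrank ℂ (hs H a q) : ℤ)

variable (M)

/-- A meromorphic function. -/
def MerM (f : M.X → ℂ) : Prop := M.All fun e z => ∃ a b : E n → ℂ, HolN a z ∧ HolN b z ∧
  (∃ᶠ w in 𝓝 z, b w ≠ 0) ∧ ∀ᶠ w in 𝓝 z, b w ≠ 0 → f (e.symm w) = a w / b w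

/-- Every meromorphic function is constant. -/
def A0 : Prop := ∀ f, MerM M f → ∃ y c, ∀ᶠ x in 𝓝 y, f x = c

/-- A holomorphic section, not zero, with the transition matrices `T` twisted by `a K`. -/
structure Tw {σ : Type} [Fintype σ] (T : M.Ch → M.Ch → M.X → Mx σ) (a : ℕ)
    (W : M.Fam (σ → ℂ)) : Prop where
  hol : Hol W
  nz : Nz W
  cmp : M.Ov fun e e' x => W e (e x) = ((M.J e e' x).det ^ a)⁻¹ • T e e' x *ᵥ W e' (e' x)

end Pool.Agent.Lib.K3E
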