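import Pool.Agent.Lib.K3E.SDefs
import Pool.Agent.Lib.K3E.Defs
import Pool.Agent.Lib.HW.Br

/-! Project k3e: non-vanishing in algebraic dimension zero. Blueprint. -/

open scoped Classical Topology ContDiff ComplexOrder Matrix Manifold
open Set MeasureTheory Filter

noncomputable section

namespace Pool.Agent.Lib.K3E

open Pool.Agent.Lib.SV (E Pluri)
open Pool.Agent.Lib.HS32 Pool.Agent.Lib.HLK Pool.Agent.Lib.GH
open Pool.Agent.Lib.HS.BBR (mf)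
open Pool.Agent.Lib.RB.R32 (fam)
open Pool.Agent.Lib.HW (CanNef)

/-- The theorem. -/
def St_K3 : Prop := ∀ (n : ℕ) (X : Type) [TopologicalSpace X] [ChartedSpace (E n) X]
  [IsManifold 𝓘(ℂ, E n) ω X] [CompactSpace X] [T2Space X] [ConnectedSpace X] (g : X → Mat n),
  Kaehler g → CanNef g →
  ∑ p ∈ Finset.range (n + 1), (-1 : ℤ) ^ p * Module.finrank ℂ (Forms n X p) ≠ 0 →
  (∀ f : X → ℂ, Mero n f → ∃ y c, ∀ᶠ x in 𝓝 y, f x = c) →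
  ∃ m, 0 < m ∧ ∃ s ∈ Pluri n X m, s ≠ 0

/-- The weight and its curvature. -/
def St_KAN : Prop := ∀ (n : ℕ) (M : Mf n) (H : M.Fam (Mat n)) (a : ℕ), M.Met H →
  M.WtC (kan M a) (wk H a) ∧ M.All fun e z => M.hw (wk H a) e z = -((a : ℝ) • M.ric H e z)

/-- The weights given by the theorem on the Lelong numbers. -/
def St_ZW : Prop := ∀ (n : ℕ) (M : Mf n) [M.Cpt] (H : M.Fam (Mat n)) (a : ℕ), 0 < n → M.Kae H →
  W86.Nef M H → 2 ≤ a → ∃ C : ℝ, ∀ δ : ℝ, 0 < δ → ∃ ε ∈ Ioc 0 δ, ∃ w : M.X → ℝ, M.Sm w ∧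
    (∀ x, w x ≤ 0) ∧ M.Le 0 (M.hw (wk H a) + M.ric H + M.hs w + ε • H) ∧
    ∫ x, Real.exp (-(2 * n * w x)) ∂M.mu H ≤ C

/-- The index. -/
def St_IDX : Prop := ∀ (n : ℕ) (M : Mf n) [M.Cpt] (H : M.Fam (Mat n)), 0 < n → M.Kae H →
  chi H 1 ≠ 0 → {a : ℕ | Ah H (kan M a) (wk H a)}.Infinite

/-- The identity theorem. -/
def St_ID : Prop := ∀ (n : ℕ) (M : Mf n) [M.Cpt] (σ : Type) [Fintype σ]
  (T : M.Ch → M.Ch → M.X → Mx σ) (a : ℕ) (W : M.Fam (σ → ℂ)), Tw M T a W →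
  M.All fun e z => ∃ i, ∃ᶠ w in 𝓝 z, W e w i ≠ 0

/-- The rule of Cramer. -/
def St_CRK : Prop := ∀ (n : ℕ) (M : Mf n) (σ : Type) [Fintype σ]
  (T : M.Ch → M.Ch → M.X → Mx σ), {a : ℕ | ∃ W, Tw M T a W}.Infinite →
  ∃ (τ : Type) (_ : Fintype τ) (T' : M.Ch → M.Ch → M.X → Mx τ) (S : Set ℕ)
    (s : ℕ → M.Fam (τ → ℂ)), S.Infinite ∧ (∀ a ∈ S, Tw M T' a (s a)) ∧
    ∀ a ∈ S, ∀ b ∈ S, M.All fun e z => ∀ i j, s a e z i * s b e z j = s a e z j * s b e z i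

/-- A local bound for the root. -/
def St_LOC : Prop := ∀ (n : ℕ) (U : Set (E n)) (z : E n) (f g : E n → ℂ) (m : ℕ), IsOpen U →
  z ∈ U → DifferentiableOn ℂ f U → DifferentiableOn ℂ g U → (∃ᶠ w in 𝓝 z, g w ≠ 0) →
  {k : ℕ | ∃ h, DifferentiableOn ℂ h U ∧ ∀ w ∈ U, f w ^ (k + m) = h w * g w ^ k}.Infinite →
  ∃ u, HolN u z ∧ ∀ᶠ w in 𝓝 z, f w = u w * g w

/-- Proportional sections. -/
def St_RK1 : Prop := ∀ (n : ℕ) (M : Mf n) [M.Cpt] (σ : Type) [Fintype σ]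
  (T : M.Ch → M.Ch → M.X → Mx σ) (S : Set ℕ) (s : ℕ → M.Fam (σ → ℂ)), A0 M → S.Infinite →
  (∀ a ∈ S, Tw M T a (s a)) →
  (∀ a ∈ S, ∀ b ∈ S, M.All fun e z => ∀ i j, s a e z i * s b e z j = s a e z j * s b e z i) →
  ∃ m, 0 < m ∧ ∃ t, M.HSec m t ∧ ∃ e ∈ M.C, ∃ z ∈ e.target, t e z ≠ 0

/-- The matrix of the star operator. -/
def star (n : ℕ) : Mx (Fs n) := Matrix.of fun A B => if A = Bᶜ then (-1) ^ ∑ b ∈ B, (b : ℕ) else 0

/-- The expansion of Laplace. -/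
def St_STAR : Prop := ∀ (n : ℕ) (g : Mat n), La g * star n * (La g)ᵀ = g.det • star n

/-- The components of an alternating form. -/
def cmpt {n p : ℕ} (α : E n [⋀^Fin p]→ₗ[ℂ] ℂ) : Fs n → ℂ := fun B =>
  if h : B.card = p then α fun i => Pi.single (B.orderEmbOfFin h i) 1 else 0

/-- Alternating forms and their components. -/
def St_ALT : Prop := ∀ n p : ℕ,
  (∀ (α : E n [⋀^Fin p]→ₗ[ℂ] ℂ) (g : Mat n),
    cmpt (α.compLinearMap g.mulVecLin) = (La g)ᵀ *ᵥ cmpt α) ∧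
  (∀ v : Fin p → E n, ∃ c : Fs n → ℂ,
    ∀ β : E n [⋀^Fin p]→ₗ[ℂ] ℂ, β v = ∑ B, c B * cmpt β B) ∧
  ∀ c : Fs n → ℂ, (∀ B, B.card ≠ p → c B = 0) → ∃ α : E n [⋀^Fin p]→ₗ[ℂ] ℂ, cmpt α = c

/-- Holomorphic forms are holomorphic multivectors with values in the canonical bundle. -/
def St_FRM : Prop := ∀ (n : ℕ) (X : Type) [TopologicalSpace X] [ChartedSpace (E n) X]
  [IsManifold 𝓘(ℂ, E n) ω X] (H : (mf n X).Fam (Mat n)) (p q : ℕ), p + q = n →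
  Module.finrank ℂ (Forms n X p) = Module.finrank ℂ (hs H 1 q)

/-- Meromorphic functions and pluricanonical forms in the two languages. -/
def St_MER : Prop := ∀ (n : ℕ) (X : Type) [TopologicalSpace X] [ChartedSpace (E n) X]
  [IsManifold 𝓘(ℂ, E n) ω X], (∀ f : X → ℂ, MerM (mf n X) f → Mero n f) ∧
  ∀ m t, (mf n X).HSec m t → (∃ e ∈ (mf n X).C, ∃ z ∈ e.target, t e z ≠ 0) →
    ∃ s ∈ Pluri n X m, s ≠ 0

theorem top (hHL : St_HL) (hKAN : St_KAN) (hZW : St_ZW) (hIDX : St_IDX) (hCRK : St_CRK)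
    (hRK1 : St_RK1) (hFRM : St_FRM) (hMER : St_MER) : St_K3 := by
  intro n X _ _ _ _ _ _ g hg hK hχ hA
  rcases Nat.eq_zero_or_pos n with rfl | hn
  · exact ⟨1, one_pos, 1, fun x => differentiable_of_subsingleton _,
      one_ne_zero⟩
  have : (mf n X).Cpt := ⟨‹_›, ‹_›, ‹_›⟩
  have hH := HW.kae hg
  have h1 : chi (fam g) 1 ≠ 0 := fun h => hχ (by
    rw [← Finset.sum_range_reflect]
    refine Eq.trans ?_ ((congrArg ((-1 : ℤ) ^ n * ·) h).trans (mul_zero _))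
    rw [chi, Finset.mul_sum]
    refine Finset.sum_congr rfl fun q hq => ?_
    obtain ⟨p, rfl⟩ := Nat.exists_eq_add_of_le' (Nat.lt_succ_iff.1 (Finset.mem_range.1 hq))
    rw [Nat.add_sub_cancel, Nat.add_sub_cancel, hFRM _ X (fam g) p q rfl, ← mul_assoc, ← pow_add,
      add_assoc, pow_add, ← two_mul, pow_mul, neg_one_sq, one_pow, mul_one])
  have h2 : {a : ℕ | ∃ W, Tw (mf n X) (fun e e' x => La ((mf n X).J e e' x)) a W}.Infinite := by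
    refine ((hIDX n _ _ hn hH h1).sdiff (finite_lt_nat 2)).mono fun a ha => ?_
    obtain ⟨C, hC⟩ := hZW n _ _ a hn hH (HW.nef hg hK) (not_lt.1 ha.2)
    obtain ⟨V, v1, v2, v3⟩ := hHL n _ _ _ _ C hn hH (hKAN n _ _ a hH.toMet).1 hC ha.1
    refine ⟨V, v2, v3, fun e he e' he' x hx hx' => ?_⟩
    beta_reduce
    rw [v1.cmp e he e' he' x hx hx', ← Matrix.smul_mulVec, ← mul_one (_ ^ a)]
    rfl
  obtain ⟨τ, _, T, S, s, s1, s2, s3⟩ := hCRK n _ _ _ h2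
  obtain ⟨m, hm, t, t1, t2⟩ := hRK1 n _ τ T S s (fun f hf => hA f ((hMER n X).1 f hf)) s1 s2 s3
  exact ⟨m, hm, (hMER n X).2 m t t1 t2⟩

end Pool.Agent.Lib.K3E
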