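import Pool.Agent.Lib.K3E.Blue
import Pool.Agent.Lib.HLK.B_FK2

/-! Alternating forms and their components. -/

open scoped Classical Matrix
open Finset

noncomputable section

namespace Pool.Agent.Lib.K3E

open Pool.Agent.Lib.SV (E)
open Pool.Agent.Lib.HS32 Pool.Agent.Lib.HLK

namespace ALT

variable {n p : ℕ}

/-- The basic alternating forms. -/
def bs (p : ℕ) (B : Fs n) : E n [⋀^Fin p]→ₗ[ℂ] ℂ :=
  if h : B.card = p then
    Matrix.detRowAlternating.compLinearMap (LinearMap.funLeft ℂ ℂ (B.orderEmbOfFin h)) else 0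

theorem bs_mul (g : Mat n) (A : Fs n) {B : Fs n} (hB : B.card = p) :
    bs p A (fun i => g *ᵥ Pi.single (B.orderEmbOfFin hB i) 1) = La g A B := by
  unfold bs
  by_cases h : A.card = p
  · rw [dif_pos h, FK2.la_eq g h hB, ← Matrix.det_transpose]
    refine congrArg Matrix.det (Matrix.ext fun i j => ?_)
    simp [LinearMap.funLeft]
  · rw [dif_neg h, FK2.la_ne g fun e => h (e.symm.trans hB)]
    rfl

theorem la_one (A B : Fs n) : La (1 : Mat n) A B = if A = B then 1 else 0 := by
  split_ifs with h
  · subst h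
    rw [FK2.la_eq _ rfl rfl, Matrix.submatrix_one _ (A.orderEmbOfFin rfl).injective, Matrix.det_one]
  by_cases hc : B.card = A.card
  · obtain ⟨a, ha, hb⟩ : ∃ a ∈ A, a ∉ B := by
      by_contra hn
      exact h (eq_of_subset_of_card_le (fun a ha => by_contra fun hb => hn ⟨a, ha, hb⟩) hc.le)
    obtain ⟨i, rfl⟩ : a ∈ Set.range (A.orderEmbOfFin rfl) := by
      rw [range_orderEmbOfFin]; exact ha
    rw [FK2.la_eq _ rfl hc]
    refine Matrix.det_eq_zero_of_row_eq_zero i fun j => Matrix.one_apply_ne fun e => hb ?_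
    rw [e]
    exact orderEmbOfFin_mem _ _ _
  · exact FK2.la_ne _ hc

theorem sum_app (c : Fs n → ℂ) (v : Fin p → E n) (s : Finset (Fs n)) :
    (∑ B ∈ s, c B • bs p B) v = ∑ B ∈ s, bs p B v * c B := by
  induction s using Finset.induction_on with
  | empty => rfl
  | insert a s h ih =>
    rw [sum_insert h, sum_insert h, AlternatingMap.add_apply, ih, AlternatingMap.smul_apply,
      smul_eq_mul, mul_comm]

theorem cmpt_sum (c : Fs n → ℂ) (hc : ∀ B, B.card ≠ p → c B = 0) :
    cmpt (∑ B, c B • bs p B) = c := by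
  funext A
  unfold cmpt
  split_ifs with h
  · have k : ∀ B, bs p B (fun i => Pi.single (A.orderEmbOfFin h i) 1) = if B = A then 1 else 0 :=
      fun B => by
        rw [← la_one, ← bs_mul 1 B h]
        simp only [Matrix.one_mulVec]
    simp [sum_app, k]
  · exact (hc A h).symm

theorem inj {β γ : E n [⋀^Fin p]→ₗ[ℂ] ℂ} (h : cmpt β = cmpt γ) : β = γ := by
  refine (Pi.basisFun ℂ (Fin n)).ext_alternating fun v hv => ?_
  have hc : (univ.image v).card = p := by rw [card_image_of_injective _ hv, card_fin]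
  have e : v ∘ Tuple.sort v = (univ.image v).orderEmbOfFin hc :=
    orderEmbOfFin_unique hc (fun i => mem_image_of_mem _ (mem_univ _))
      ((Tuple.monotone_sort v).strictMono_of_injective (hv.comp (Tuple.sort v).injective))
  have k := congrFun h (univ.image v)
  simp only [cmpt, dif_pos hc, ← e] at k
  have k1 := β.map_perm (fun i => Pi.single (v i) 1) (Tuple.sort v)
  have k2 := γ.map_perm (fun i => Pi.single (v i) 1) (Tuple.sort v)
  simp only [Pi.basisFun_apply]
  exact smul_left_cancel _ (k1.symm.trans (k.trans k2))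

theorem expand (β : E n [⋀^Fin p]→ₗ[ℂ] ℂ) (v : Fin p → E n) :
    β v = ∑ B, bs p B v * cmpt β B :=
  (congrArg (· v) (inj (cmpt_sum (cmpt β) fun _ h => dif_neg h))).symm.trans (sum_app _ v _)

end ALT

open ALT in
theorem bALT : St_ALT := by
  refine fun n p => ⟨fun α g => funext fun B => ?_, fun v => ⟨_, fun β => expand β v⟩,
    fun c hc => ⟨_, cmpt_sum c hc⟩⟩
  by_cases h : B.card = p
  · refine (dif_pos h).trans ((expand α _).trans (sum_congr rfl fun A _ => ?_))
    exact congrArg (· * cmpt α A) (bs_mul g A h)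
  · refine (dif_neg h).trans (Eq.symm (?_ : ∑ A, La g A B * cmpt α A = 0))
    refine sum_eq_zero fun A _ => ?_
    by_cases hA : A.card = p
    · exact mul_eq_zero_of_left (FK2.la_ne g fun e => h (e.trans hA)) _
    · exact mul_eq_zero_of_right _ (dif_neg hA)

end Pool.Agent.Lib.K3E
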