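import Pool.Agent.Lib.K3E.Blue
import Pool.Agent.Lib.HLK.B_LAM

/-! Project k3e, row FRM: forms and multivectors. -/

open scoped Classical Topology ContDiff ComplexOrder Matrix Manifold
open Set Filter

noncomputable section

namespace Pool.Agent.Lib.K3E

open Pool.Agent.Lib.SV (E)
open Pool.Agent.Lib.HS32 Pool.Agent.Lib.HLK
open Pool.Agent.Lib.HS.BBR (mf)

namespace FRM

variable {n p : ℕ}

theorem star_mv (v : Fs n → ℂ) (A : Fs n) :
    (star n *ᵥ v) A = (-1) ^ (∑ b ∈ Aᶜ, (b : ℕ)) * v Aᶜ := by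
  simp only [Matrix.mulVec, dotProduct, star, Matrix.of_apply]
  rw [Finset.sum_eq_single Aᶜ (fun B _ h => by
    rw [if_neg fun c => h (by rw [c, compl_compl]), zero_mul]) (by simp), if_pos (compl_compl A).symm]

theorem inv_mv (v : Fs n → ℂ) (B : Fs n) :
    v B = (-1) ^ (∑ b ∈ B, (b : ℕ)) * (star n *ᵥ v) Bᶜ := by
  rw [star_mv, compl_compl, ← mul_assoc, ← mul_pow]
  simp

variable {M : Mf n} {H : M.Fam (Mat n)}

/-- The family attached to a field of forms. -/
def fm (c : M.X → M.Ch) (α : M.X → E n [⋀^Fin p]→ₗ[ℂ] ℂ) : M.Fam (Fs n → ℂ) := fun e z =>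
  star n *ᵥ cmpt ((α (e.symm z)).compLinearMap (M.J (c (e.symm z)) e (e.symm z)).mulVecLin)

variable {c : M.X → M.Ch} {α : M.X → E n [⋀^Fin p]→ₗ[ℂ] ℂ}

theorem law (hS : St_STAR) (hA : St_ALT) (hc : ∀ x, c x ∈ M.C ∧ x ∈ (c x).source) :
    M.Ov fun e e' x => fm c α e (e x) = (lk H 1).T e e' x *ᵥ fm c α e' (e' x) := by
  intro e he e' he' x hx hx'
  have hJ := ((mTR n M).2.1 e he e' he' x hx hx').2.1
  have m := ((mTR n M).2.1 _ (hc x).1 e he x (hc x).2 hx).2.2.2.2 e' he' hx'
  have t : (lk H 1).T e e' x = ((M.J e e' x).det ^ 1 * 1)⁻¹ • La (M.J e e' x) := rfl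
  simp only [fm, e.left_inv hx, e'.left_inv hx', t, m, Matrix.mulVecLin_mul]
  rw [← AlternatingMap.compLinearMap_assoc, (hA n p).1 _ (M.J e e' x), Matrix.mulVec_mulVec,
    Matrix.mulVec_mulVec, Matrix.smul_mul, Matrix.smul_mul, hS, smul_smul, pow_one, mul_one,
    inv_mul_cancel₀ hJ, one_smul]

theorem move (h3 : St_FK3) {W : M.Fam (Fs n → ℂ)}
    (h : M.Ov fun e e' x => W e (e x) = (lk H 1).T e e' x *ᵥ W e' (e' x)) :
    M.Ov fun e e' x => (∀ A, DifferentiableAt ℂ (fun w => W e' w A) (e' x)) →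
      ∀ A, DifferentiableAt ℂ (fun w => W e w A) (e x) := by
  intro e he e' he' x hx hx' d A
  obtain ⟨hN, -, -, hev, -⟩ := (mTR n M).2.1 e' he' e he x hx' hx
  have hψ : (e' ∘ e.symm) (e x) = e' x := by simp [e.left_inv hx]
  have f : DifferentiableAt ℂ (fun u => ∑ B, (lk H 1).T e e' (e'.symm u) A B * W e' u B)
      ((e' ∘ e.symm) (e x)) := by
    rw [hψ]
    exact DifferentiableAt.fun_sum fun B _ =>
      (LAM.hl h3 e he e' he' x hx hx' A B).self_of_nhds.fun_mul (d B)
  refine (f.comp _ hN.self_of_nhds).congr_of_eventuallyEq (hev.mono fun w hw => ?_)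
  have := congrFun (h e he e' he' _ hw.2.2.1 hw.2.1) A
  rw [hw.2.2.2.2.2.1] at this
  simp only [Function.comp, hw.2.2.2.2.1]
  exact this

theorem deg {q : ℕ} (h : p + q = n) : Deg q (fm c α) := fun e z A hA => by
  rw [fm, star_mv, cmpt, dif_neg, mul_zero]
  have := Finset.card_add_card_compl A
  rw [Fintype.card_fin] at this
  omega

end FRM

open FRM in
theorem bFRM (h3 : St_FK3) (hS : St_STAR) (hA : St_ALT) : St_FRM := by
  intro n X _ _ _ H p q hpq
  let M : Mf n := mf n X
  let c : M.X → M.Ch := chartAt (M := X) (E n)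
  have hc : ∀ x, c x ∈ M.C ∧ x ∈ (c x).source :=
    fun x => ⟨HW.ch_mem (X := X) x, mem_chart_source (M := X) (E n) x⟩
  obtain ⟨hch, hov, hone, -⟩ := mTR n M
  have jac : ∀ (α : M.X → E n [⋀^Fin p]→ₗ[ℂ] ℂ) (x : M.X), ∀ z ∈ (c x).target, ∀ v : Fin p → E n,
      (α ((c x).symm z)).compLinearMap (M.J (c ((c x).symm z)) (c x) ((c x).symm z)).mulVecLin v =
        α ((c x).symm z) fun i => HS.jacM (X := X) x z *ᵥ v i := fun α x z hz v => by
    rw [Mf.J, (c x).right_inv hz]
    rfl
  let Φ : Forms n X p →ₗ[ℂ] M.X → Fs n → ℂ :=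
    { toFun := fun α => M.ev (fm c α.1)
      map_add' := fun a b => funext fun x => by
        simp only [Mf.ev, fm, Pi.add_apply, ← Matrix.mulVec_add]
        refine congrArg _ (funext fun B => ?_)
        simp only [cmpt, Pi.add_apply]
        split_ifs
        · rfl
        · exact (add_zero 0).symm
      map_smul' := fun t a => funext fun x => by
        simp only [Mf.ev, fm, Pi.smul_apply, ← Matrix.mulVec_smul]
        refine congrArg _ (funext fun B => ?_)
        simp only [cmpt, Pi.smul_apply]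
        split_ifs
        · rfl
        · exact (smul_zero _).symm }
  have inj : Function.Injective Φ := (injective_iff_map_eq_zero Φ).2 fun α h =>
    Subtype.ext (funext fun (x : M.X) => AlternatingMap.ext fun v => by
      have h0 : fm c α.1 (M.ch x) (M.ch x x) = 0 := congrFun h x
      simp only [fm, Mf.ch_symm] at h0
      obtain ⟨k, hk⟩ := (hA n p).2.1 fun i => M.J (M.ch x) (c x) x *ᵥ v i
      have := hk ((α.1 x).compLinearMap (M.J (c x) (M.ch x) x).mulVecLin)
      simp only [AlternatingMap.compLinearMap_apply, Matrix.mulVecLin_apply, Matrix.mulVec_mulVec,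
        (hov _ (hc x).1 _ (hch x).1 x (hc x).2 (hch x).2).2.2.1, Matrix.one_mulVec] at this
      refine this.trans (Finset.sum_eq_zero fun B _ => ?_)
      rw [inv_mv (cmpt _) B, h0, Pi.zero_apply, mul_zero, mul_zero])
  rw [← LinearMap.finrank_range_of_inj inj]
  refine congrArg (fun S : Submodule ℂ (M.X → Fs n → ℂ) => Module.finrank ℂ S) (le_antisymm ?_ ?_)
  · rintro _ ⟨α, rfl⟩
    have l := law (H := H) (α := α.1) hS hA hc
    have d : M.All fun e z => ∀ A, DifferentiableAt ℂ (fun w => fm c α.1 e w A) z := by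
      intro e he z hz
      have := move h3 l e he _ (hc _).1 _ (e.map_target hz) (hc _).2 fun A => ?_
      · rwa [e.right_inv hz] at this
      · simp only [fm, star_mv, cmpt]
        split_ifs with h
        · refine ((α.2 (e.symm z) fun i => Pi.single (Aᶜ.orderEmbOfFin h i) 1).congr_of_eventuallyEq
            ?_).const_mul _
          filter_upwards [(c _).open_target.mem_nhds ((c _).map_source (hc (e.symm z)).2)] with w hw
          exact jac _ _ w hw _
        · exact differentiableAt_const _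
    have hh : Hol (fm c α.1) := fun e he z hz A => (d.ev he hz).mono fun w hw => hw A
    exact Submodule.subset_span ⟨_, ⟨fun e he z hz => contDiffAt_pi.2 fun A =>
      ((mHOL n _ _).2.2 (hh e he z hz A)).1, l⟩, hh, deg hpq, rfl⟩
  · refine Submodule.span_le.2 ?_
    rintro _ ⟨W, w1, w2, w3, rfl⟩
    choose α hα using fun y : M.X => (hA n p).2.2
      (fun B => (-1) ^ (∑ b ∈ B, (b : ℕ)) * W (c y) (c y y) Bᶜ) fun B hB => by
        rw [w3, mul_zero]
        have := Finset.card_add_card_compl B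
        rw [Fintype.card_fin] at this
        omega
    have e0 : ∀ y, fm c α (c y) (c y y) = W (c y) (c y y) := fun y => funext fun A => by
      rw [fm, (c y).left_inv (hc y).2, hone _ (hc y).1 y (hc y).2, Matrix.mulVecLin_one,
        AlternatingMap.compLinearMap_id, hα, star_mv, compl_compl, ← mul_assoc, ← mul_pow]
      simp
    have e1 : M.All fun e z => fm c α e z = W e z := fun e he z hz => by
      have a := law (H := H) (α := α) hS hA hc e he _ (hc _).1 _ (e.map_target hz) (hc _).2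
      have b := w1.cmp e he _ (hc _).1 _ (e.map_target hz) (hc _).2
      beta_reduce at a b ⊢
      rw [e0, ← b, e.right_inv hz] at a
      exact a
    refine ⟨⟨α, fun (x : M.X) v => ?_⟩, Mf.ev_congr e1⟩
    obtain ⟨k, hk⟩ := (hA n p).2.1 v
    have hz := (c x).map_source (hc x).2
    refine (DifferentiableAt.fun_sum (u := Finset.univ) fun B _ => (((w2 _ (hc x).1 _ hz Bᶜ
      ).self_of_nhds.const_mul ((-1) ^ ∑ b ∈ B, (b : ℕ))).const_mul (k B))).congr_of_eventuallyEq ?_
    filter_upwards [(c x).open_target.mem_nhds hz] with w hw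
    refine ((jac α x w hw v).symm.trans (hk _)).trans (Finset.sum_congr rfl fun B _ => ?_)
    rw [inv_mv (cmpt _) B, ← e1 _ (hc x).1 w hw]
    rfl

end Pool.Agent.Lib.K3E
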