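import Pool.Agent.Lib.K3E.Blue
import Pool.Agent.Lib.NV5.B_CRM

/-! Row CRK: the rule of Cramer. -/

open scoped Classical Topology Matrix
open Set Filter

noncomputable section

namespace Pool.Agent.Lib.K3E

open Pool.Agent.Lib.SV (E)
open Pool.Agent.Lib.HS32 Pool.Agent.Lib.HLK
open Pool.Agent.Lib.NV5.CRMb (mn)

namespace CRK

theorem law {σ : Type} [Fintype σ] {r : ℕ} (T : Mx σ) (c : ℕ → ℂ) (v w : ℕ → σ → ℂ) (α : Fin r → ℕ)
    (h : ∀ i, v (α i) = c (α i) • T *ᵥ w (α i)) (I : Fin r → σ) :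
    mn v α I = (∏ i, c (α i)) * ∑ J : Fin r → σ, (∏ k, T (I k) (J k)) * mn w α J := by
  have e1 : mn v α I = (∏ i, c (α i)) * (Matrix.of fun i i' : Fin r => (T *ᵥ w (α i)) (I i')).det := by
    rw [← Matrix.det_mul_column]
    simp only [mn, h, Pi.smul_apply, smul_eq_mul, Matrix.of_apply]
  have e2 := (Matrix.detRowAlternating (n := Fin r) (R := ℂ)).toMultilinearMap.map_sum
    fun i' j => T (I i') j • fun i => w (α i) j
  simp only [MultilinearMap.map_smul_univ, smul_eq_mul] at e2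
  rw [e1, ← Matrix.det_transpose]
  refine congrArg _ (Eq.trans ?_ (e2.trans (Finset.sum_congr rfl fun J _ => congrArg _ ?_)))
  · exact congrArg Matrix.det (Matrix.ext fun i' i => by simp [Matrix.mulVec, dotProduct])
  · exact Matrix.det_transpose (Matrix.of fun i i' : Fin r => w (α i) (J i'))

end CRK

theorem bCRK : St_CRK := fun n M σ _ T h => by
  choose! W hW using fun a (ha : a ∈ {a : ℕ | ∃ W, Tw M T a W}) => ha
  obtain ⟨r, S, α, h1, h2, h3⟩ := NV5.CRMb.main
    (X := {p : M.Ch × E n // p.1 ∈ M.C ∧ p.2 ∈ p.1.target}) _ h (fun p a => W a p.1.1 p.1.2)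
    (fun a ha => by
      obtain ⟨e, he, z, hz, k⟩ := (hW a ha).nz
      obtain ⟨j, hj⟩ := Function.ne_iff.1 k
      exact ⟨⟨(e, z), he, hz⟩, j, hj⟩) 0
  refine ⟨Fin r → σ, inferInstance, fun e e' x => Matrix.of fun I J => ∏ k, T e e' x (I k) (J k), S,
    fun a e z => mn (fun b => W b e z) (α a), h1, fun a ha => ?_,
    fun a ha b hb e he z hz => h3 a ha b hb ⟨(e, z), he, hz⟩⟩
  obtain ⟨-, k1, k2, p, I, k3⟩ := h2 a ha
  refine ⟨fun e he z hz I => ?_, ⟨_, p.2.1, _, p.2.2, fun c => k3 (congrFun c I)⟩,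
    fun e he e' he' x hx hx' => funext fun I => ?_⟩
  · have : ∀ᶠ w in 𝓝 z, ∀ i j, DifferentiableAt ℂ (fun y => W (α a i) e y j) w :=
      eventually_all.2 fun i => eventually_all.2 fun j => (hW _ (k1 i)).hol e he z hz j
    filter_upwards [this] with w hw
    simp only [mn, Matrix.det_apply', Matrix.of_apply]
    exact DifferentiableAt.fun_sum fun q _ => (differentiableAt_const _).mul
      (HasFDerivAt.finsetProd fun i _ => (hw (q i) (I i)).hasFDerivAt).differentiableAt
  · refine (CRK.law (T e e' x) (fun b => ((M.J e e' x).det ^ b)⁻¹) _ (fun b => W b e' (e' x)) _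
      (fun i => (hW _ (k1 i)).cmp e he e' he' x hx hx') I).trans ?_
    rw [Finset.prod_inv_distrib, Finset.prod_pow_eq_pow_sum, k2]
    rfl

end Pool.Agent.Lib.K3E
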