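import Pool.Agent.Lib.K3E.Blue

/-! Project k3e, row MER: meromorphic functions and pluricanonical forms in the two languages. -/

open scoped Classical Topology ContDiff ComplexOrder Matrix Manifold
open Set MeasureTheory Filter

noncomputable section

namespace Pool.Agent.Lib.K3E

open Pool.Agent.Lib.SV (E Pluri)
open Pool.Agent.Lib.HS32 Pool.Agent.Lib.KP
open Pool.Agent.Lib.HS.BBR (mf)

theorem bMER : St_MER := by
  intro n X _ _ _
  let M : Mf n := mf n X
  let c : M.X → M.Ch := chartAt (M := X) (E n)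
  have hc : ∀ x, c x ∈ M.C := HW.ch_mem (X := X)
  have hs : ∀ x, x ∈ (c x).source := mem_chart_source (M := X) (E n)
  obtain ⟨-, hov, -⟩ := mTR n M
  refine ⟨fun f h (y : M.X) => ?_, fun m t ht ⟨e, he, z, hz, h0⟩ =>
    ⟨fun y : M.X => t (c y) (c y y), fun y : M.X => ?_, fun h => h0 ?_⟩⟩
  · obtain ⟨a, b, h1, h2, h3, h4⟩ := h _ (hc y) _ ((c y).map_source (hs y))
    have k : ∀ u : E n → ℂ, ∀ x ∈ (c y).source, DifferentiableAt ℂ u (c y x) →
        HolAt n 0 (X := X) (fun x : M.X => u (c y x)) x := fun u x hx hu => by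
      have d := (hov _ (hc y) _ (hc x) x hx (hs x)).1.self_of_nhds
      have e1 : (c y ∘ (c x).symm) (c x x) = c y x := congrArg (c y) ((c x).left_inv (hs x))
      simp only [HolAt, pow_zero, mul_one]
      exact (e1 ▸ hu).comp (c x x) d
    rw [HolN, ← (c y).map_nhds_eq (hs y), eventually_map] at h1 h2
    rw [← (c y).map_nhds_eq (hs y)] at h3 h4
    refine ⟨fun x : M.X => a (c y x), fun x : M.X => b (c y x), frequently_map.1 h3, ?_⟩
    filter_upwards [h1, h2, eventually_map.1 h4, (c y).open_source.mem_nhds (hs y)]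
      with x d1 d2 d3 hx
    rw [(c y).left_inv hx] at d3
    exact ⟨k a x hx d1, k b x hx d2, d3⟩
  · refine (ht.hol _ (hc y) _ ((c y).map_source (hs y))).congr_of_eventuallyEq ?_
    filter_upwards [(c y).open_target.mem_nhds ((c y).map_source (hs y))] with w hw
    have h4 : t (c y) (c y ((c y).symm w)) = _ :=
      ht.cmp _ (hc ((c y).symm w)) _ (hc y) _ (hs _) ((c y).map_target hw)
    have h5 := (hov _ (hc ((c y).symm w)) _ (hc y) _ (hs _) ((c y).map_target hw)).1
    rw [Mf.J] at h4
    rw [(c y).right_inv hw] at h4 h5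
    rw [h4, ← (mCHN n _ _ h5).2.2.2.2.2.2.1]
    rfl
  · have h4 : t e (e (e.symm z)) = _ := ht.cmp _ (hc (e.symm z)) _ he _ (hs _) (e.map_target hz)
    rw [e.right_inv hz, show t (c (e.symm z)) (c (e.symm z) (e.symm z)) = 0 from
      congrFun h (e.symm z), zero_mul] at h4
    exact h4

end Pool.Agent.Lib.K3E
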