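import Pool.Agent.Lib.K3E.Blue
import Pool.Agent.Lib.KP.B_REX

/-! Row LOC: a local bound for the root. -/

open scoped Classical Topology
open Set Filter Metric

noncomputable section

namespace Pool.Agent.Lib.K3E

open Pool.Agent.Lib.SV (E)
open Pool.Agent.Lib.HS32

namespace LOC

variable {n : ℕ} {U : Set (E n)} {z : E n} {f g : E n → ℂ}

theorem circ (hU : IsOpen U) (hz : z ∈ U) (hg : DifferentiableOn ℂ g U)
    (h0 : ∃ᶠ w in 𝓝 z, g w ≠ 0) : ∃ (v : E n) (ρ : ℝ), 0 < ρ ∧
      (∀ t ∈ closedBall (0 : ℂ) ρ, z + t • v ∈ U) ∧ ∀ t ∈ sphere (0 : ℂ) ρ, g (z + t • v) ≠ 0 := by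
  obtain ⟨r, r0, hr⟩ := Metric.isOpen_iff.1 hU z hz
  obtain ⟨p, p1, p2⟩ := (h0.and_eventually (ball_mem_nhds z (half_pos r0))).exists
  have hm : ∀ t ∈ ball (0 : ℂ) 2, z + t • (p - z) ∈ U := fun t ht => hr (by
    rw [dist_eq_norm] at p2
    rw [mem_ball_zero_iff] at ht
    rw [mem_ball_iff_norm, add_sub_cancel_left, norm_smul]
    nlinarith [norm_nonneg t, norm_nonneg (p - z)])
  have ha : AnalyticOnNhd ℂ (fun t : ℂ => g (z + t • (p - z))) (ball 0 2) :=
    (hg.comp (by fun_prop) hm).analyticOnNhd isOpen_ball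
  rcases (ha 0 (mem_ball_self two_pos)).eventually_eq_zero_or_eventually_ne_zero with h | h
  · have := ha.eqOn_zero_of_preconnected_of_eventuallyEq_zero (convex_ball _ _).isPreconnected
      (mem_ball_self two_pos) h (show (1 : ℂ) ∈ ball 0 2 by simp)
    exact (p1 (by simpa using this)).elim
  · obtain ⟨ε, e0, hε⟩ := Metric.eventually_nhds_iff_ball.1 (eventually_nhdsWithin_iff.1 h)
    have m0 : 0 < min (ε / 2) 1 := lt_min (half_pos e0) one_pos
    refine ⟨p - z, min (ε / 2) 1, m0, fun t ht => hm t (closedBall_subset_ball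
      ((min_le_right _ _).trans_lt one_lt_two) ht), fun t ht => hε t (sphere_subset_ball
      ((min_le_left _ _).trans_lt (half_lt_self e0)) ht) ?_⟩
    exact ne_of_mem_sphere ht m0.ne'

theorem root {a b B : ℝ} {m : ℕ} {S : Set ℕ} (hS : S.Infinite) (hb : 0 ≤ b) (hB : 0 < B)
    (h : ∀ k ∈ S, a ^ (k + m) ≤ B ^ (k + m) * b ^ k) : a ≤ B * b := by
  by_contra hc
  rw [not_le] at hc
  have a0 : 0 < a := (mul_nonneg hB.le hb).trans_lt hc
  have t := (tendsto_pow_atTop_nhds_zero_of_lt_one (div_nonneg (mul_nonneg hB.le hb) a0.le)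
    ((div_lt_one a0).2 hc)).eventually (gt_mem_nhds (div_pos (pow_pos a0 m) (pow_pos hB m)))
  obtain ⟨k, k1, k2⟩ := ((Nat.frequently_atTop_iff_infinite.2 hS).and_eventually t).exists
  have := h k k1
  rw [div_pow, div_lt_div_iff₀ (pow_pos a0 k) (pow_pos hB m), mul_pow] at k2
  rw [pow_add, pow_add] at this
  linarith

end LOC

open LOC in
theorem bLOC : St_LOC := by
  intro n U z f g m hU hz hf hg h0 hS
  obtain ⟨v, ρ, r0, r1, r2⟩ := circ hU hz hg h0
  have cl : Continuous fun t : ℂ => z + t • v := by fun_prop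
  have cf : ContinuousOn (fun t : ℂ => f (z + t • v)) (sphere 0 ρ) :=
    hf.continuousOn.comp cl.continuousOn fun t ht => r1 t (sphere_subset_closedBall ht)
  have cg : ContinuousOn (fun t : ℂ => g (z + t • v)) (sphere 0 ρ) :=
    hg.continuousOn.comp cl.continuousOn fun t ht => r1 t (sphere_subset_closedBall ht)
  obtain ⟨B₁, b1⟩ := (isCompact_sphere (0 : ℂ) ρ).exists_bound_of_continuousOn cf
  obtain ⟨B₂, b2⟩ := (isCompact_sphere (0 : ℂ) ρ).exists_bound_of_continuousOn (cf.div cg r2)
  set B := |B₁| + |B₂| + 1 with hB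
  have B0 : 0 < B := by positivity
  have cp : Continuous fun q : E n × ℂ => q.1 + q.2 • v := by fun_prop
  have e1 : ∀ᶠ w in 𝓝 z, ∀ t ∈ closedBall (0 : ℂ) ρ, w + t • v ∈ U :=
    (isCompact_closedBall _ _).eventually_forall_of_forall_eventually fun t ht =>
      cp.continuousAt.eventually (hU.mem_nhds (r1 t ht))
  have e2 : ∀ᶠ w in 𝓝 z, ∀ t ∈ sphere (0 : ℂ) ρ,
      ‖f (w + t • v)‖ < B ∧ ‖f (w + t • v)‖ < B * ‖g (w + t • v)‖ :=
    (isCompact_sphere _ _).eventually_forall_of_forall_eventually fun t ht => by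
      have hm := hU.mem_nhds (r1 t (sphere_subset_closedBall ht))
      have c1 : ContinuousAt (fun q : E n × ℂ => ‖f (q.1 + q.2 • v)‖) (z, t) :=
        (ContinuousAt.comp (f := fun q : E n × ℂ => q.1 + q.2 • v)
          (hf.continuousOn.continuousAt hm) cp.continuousAt).norm
      have c2 : ContinuousAt (fun q : E n × ℂ => B * ‖g (q.1 + q.2 • v)‖) (z, t) :=
        continuousAt_const.mul (ContinuousAt.comp (f := fun q : E n × ℂ => q.1 + q.2 • v)
          (hg.continuousOn.continuousAt hm) cp.continuousAt).norm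
      refine (c1.eventually_lt continuousAt_const ?_).and (c1.eventually_lt c2 ?_)
      · have := b1 t ht
        have := le_abs_self B₁
        have := abs_nonneg B₂
        show ‖f (z + t • v)‖ < B
        linarith
      · have g0 := norm_pos_iff.2 (r2 t ht)
        have := b2 t ht
        rw [Pi.div_apply, norm_div, div_le_iff₀ g0] at this
        refine this.trans_lt (mul_lt_mul_of_pos_right ?_ g0)
        have := le_abs_self B₂
        have := abs_nonneg B₁
        linarith
  refine KP.st_REX n f g z B (hf.eventually_differentiableAt (hU.mem_nhds hz))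
    (hg.eventually_differentiableAt (hU.mem_nhds hz)) ?_ h0
  filter_upwards [e1, e2, hU.mem_nhds hz] with w w1 w2 w3
  refine root (m := m) hS (norm_nonneg _) B0 fun k ⟨h, h1, h2⟩ => ?_
  have hd : DiffContOnCl ℂ (fun t : ℂ => h (w + t • v)) (ball 0 ρ) :=
    DifferentiableOn.diffContOnCl (h1.comp (by fun_prop) (by rwa [closure_ball _ r0.ne']))
  have := Complex.norm_le_of_forall_mem_frontier_norm_le isBounded_ball hd (C := B ^ (k + m))
    (fun t ht => by
      rw [frontier_ball _ r0.ne'] at ht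
      obtain ⟨a1, a2⟩ := w2 t ht
      have g0 : 0 < ‖g (w + t • v)‖ := (mul_pos_iff_of_pos_left B0).1 ((norm_nonneg _).trans_lt a2)
      have := congrArg norm (h2 _ (w1 t (sphere_subset_closedBall ht)))
      rw [norm_mul, norm_pow, norm_pow, pow_add] at this
      refine le_of_mul_le_mul_right ?_ (pow_pos g0 k)
      rw [← this, pow_add, mul_right_comm, ← mul_pow]
      gcongr)
    (subset_closure (mem_ball_self r0))
  rw [← norm_pow, h2 w w3, norm_mul, norm_pow]
  rw [zero_smul, add_zero] at this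
  gcongr

end Pool.Agent.Lib.K3E
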