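import Pool.Agent.Lib.K3E.Blue
import Pool.Agent.Lib.KP.B_EXTD
import Pool.Agent.Lib.SV.Hol85

/-! Project k3e, row RK1: proportional sections in algebraic dimension zero. -/

open scoped Classical Topology ContDiff Matrix
open Set Filter Metric

noncomputable section

namespace Pool.Agent.Lib.K3E

open Pool.Agent.Lib.SV (E)
open Pool.Agent.Lib.HS32 Pool.Agent.Lib.HLK

namespace RK1

variable {n : ℕ} {f g : E n → ℂ} {z : E n}

theorem dn (hg : HolN g z) (h : ∃ᶠ w in 𝓝 z, g w ≠ 0) : ∀ᶠ y in 𝓝 z, ∃ᶠ w in 𝓝 y, g w ≠ 0 := by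
  by_contra k
  refine h ((SV.H85.eventually_zero_of_frequently hg ((not_eventually.1 k).mono fun y hy =>
    (not_frequently.1 hy).mono fun w hw => not_not.1 hw)).mono fun w hw => not_not.2 hw)

theorem ne_ev (hg : HolN g z) (h : g z ≠ 0) : ∀ᶠ w in 𝓝 z, g w ≠ 0 :=
  hg.self_of_nhds.continuousAt.eventually_ne h

theorem fm (hf : HolN f z) (hg : HolN g z) (h : ∃ᶠ w in 𝓝 z, f w ≠ 0)
    (h' : ∃ᶠ w in 𝓝 z, g w ≠ 0) : ∃ᶠ w in 𝓝 z, f w ≠ 0 ∧ g w ≠ 0 :=
  frequently_frequently_nhds.1 ((h.and_eventually ((dn hg h').and hf.eventually_nhds)).mono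
    fun _ k => (k.2.1.and_eventually (ne_ev k.2.2 k.1)).mono fun _ l => l.symm)

theorem can (hf : HolN f z) (hg : HolN g z) (h : ∃ᶠ w in 𝓝 z, g w ≠ 0)
    (h' : ∀ᶠ w in 𝓝 z, g w ≠ 0 → f w = 0) : ∀ᶠ w in 𝓝 z, f w = 0 :=
  SV.H85.eventually_zero_of_frequently hf
    ((h.and_eventually (hg.eventually_nhds.and h'.eventually_nhds)).mono fun _ k =>
      ((ne_ev k.2.1 k.1).and k.2.2).mono fun _ l => l.2 l.1)

variable {M : Mf n}

theorem tr {e : M.Ch} (hz : z ∈ e.target) {p : M.X → Prop} :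
    (∀ᶠ y in 𝓝 (e.symm z), p y) ↔ ∀ᶠ w in 𝓝 z, p (e.symm w) := by
  rw [← e.symm.map_nhds_eq hz, eventually_map]

theorem tr' {e : M.Ch} (hz : z ∈ e.target) {p : M.X → Prop} :
    (∃ᶠ y in 𝓝 (e.symm z), p y) ↔ ∃ᶠ w in 𝓝 z, p (e.symm w) := by
  rw [← e.symm.map_nhds_eq hz, frequently_map]

/-- The identity theorem for meromorphic functions. -/
theorem merid [M.Cpt] {F : M.X → ℂ} (hF : MerM M F) {y : M.X} {c : ℂ} (h : ∀ᶠ x in 𝓝 y, F x = c) :
    M.All fun e z => ∃ᶠ w in 𝓝 z, ∀ᶠ v in 𝓝 w, F (e.symm v) = c := by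
  have fw : ∀ e : M.Ch, ∀ z ∈ e.target, e.symm z ∈ closure {x | ∀ᶠ y in 𝓝 x, F y = c} ↔
      ∃ᶠ w in 𝓝 z, ∀ᶠ v in 𝓝 w, F (e.symm v) = c := fun e z hz => by
    rw [mem_closure_iff_frequently, tr' hz]
    exact frequently_congr ((e.open_target.eventually_mem hz).mono fun w hw => tr hw)
  have key : closure {x | ∀ᶠ y in 𝓝 x, F y = c} = univ := by
    refine IsClopen.eq_univ ⟨isClosed_closure, isOpen_iff_eventually.2 fun x hx => ?_⟩
      ⟨y, subset_closure h⟩
    obtain ⟨e, he, hs⟩ := M.cov x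
    have hz := e.map_source hs
    obtain ⟨a, b, h1, h2, h3, h4⟩ := hF e he _ hz
    have h5 : HolN (fun w => a w - c * b w) (e x) :=
      (h1.and h2).mono fun w k => k.1.fun_sub (k.2.const_mul c)
    rw [← e.left_inv hs] at hx ⊢
    have h6 : ∀ᶠ w in 𝓝 (e x), a w - c * b w = 0 := SV.H85.eventually_zero_of_frequently h5
      ((((fw e _ hz).1 hx).and_eventually ((dn h2 h3).and (h5.eventually_nhds.and
        (h2.eventually_nhds.and h4.eventually_nhds)))).mono fun w k =>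
          can k.2.2.1 k.2.2.2.1 k.2.1 ((k.1.and k.2.2.2.2).mono fun v l hv => by
            rw [← l.1, l.2 hv, div_mul_cancel₀ _ hv, sub_self]))
    refine (tr hz).2 ?_
    filter_upwards [e.open_target.eventually_mem hz, dn h2 h3,
      ((h6.and h4).eventually_nhds.and h2.eventually_nhds).eventually_nhds] with w k1 k2 k3
    refine (fw e w k1).2 ((k2.and_eventually k3).mono fun v l => ?_)
    filter_upwards [ne_ev l.2.2 l.1, l.2.1] with u m1 m2
    rw [m2.2 m1, sub_eq_zero.1 m2.1, mul_div_cancel_right₀ _ m1]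
  exact fun e _ z hz => (fw e z hz).1 (key ▸ mem_univ _)

variable {σ : Type}

/-- The ratio of two vectors. -/
def rt (u v : σ → ℂ) : ℂ := if h : ∃ i, v i ≠ 0 then u h.choose / v h.choose else 0

theorem rt_eq {u v : σ → ℂ} {t : ℂ} (hv : v ≠ 0) (h : u = t • v) : rt u v = t := by
  have k : ∃ i, v i ≠ 0 := Function.ne_iff.1 hv
  rw [rt, dif_pos k, h, Pi.smul_apply, smul_eq_mul, mul_div_cancel_right₀ _ k.choose_spec]

theorem rt_zero (u : σ → ℂ) : rt u 0 = 0 := dif_neg fun ⟨_, h⟩ => h rfl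

theorem eq_div {u v : σ → ℂ} (h : ∀ i j, u i * v j = u j * v i) {i : σ} (hi : v i ≠ 0) :
    u = (u i / v i) • v := funext fun j => by
  rw [Pi.smul_apply, smul_eq_mul, div_mul_eq_mul_div, h i j, mul_div_cancel_right₀ _ hi]

variable [Fintype σ] {T : M.Ch → M.Ch → M.X → Mx σ} {a k : ℕ} {u v : M.Fam (σ → ℂ)}

theorem zero_iff (hv : Tw M T a v) : M.Ov fun e e' x => v e' (e' x) = 0 → v e (e x) = 0 :=
  fun e he e' he' x hx hx' h => by
    rw [hv.cmp e he e' he' x hx hx', h, Matrix.mulVec_zero, smul_zero]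

theorem law (hu : Tw M T (a + k) u) (hv : Tw M T a v)
    (h : M.All fun e z => ∀ i j, u e z i * v e z j = u e z j * v e z i) : M.Ov fun e e' x =>
      rt (u e' (e' x)) (v e' (e' x)) = rt (u e (e x)) (v e (e x)) * (M.J e e' x).det ^ k := by
  intro e he e' he' x hx hx'
  by_cases h0 : v e' (e' x) = 0
  · rw [zero_iff hv e he e' he' x hx hx' h0, h0, rt_zero, rt_zero, zero_mul]
  have h1 : v e (e x) ≠ 0 := fun k => h0 (zero_iff hv e' he' e he x hx' hx k)
  have hd := ((mTR n M).2.1 e he e' he' x hx hx').2.1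
  obtain ⟨i, hi⟩ := Function.ne_iff.1 h0
  have h2 := eq_div (h e' he' _ (e'.map_source hx')) hi
  generalize u e' (e' x) i / v e' (e' x) i = t at h2
  have h3 : u e (e x) = (t / (M.J e e' x).det ^ k) • v e (e x) := by
    rw [hu.cmp e he e' he' x hx hx', hv.cmp e he e' he' x hx hx', h2, Matrix.mulVec_smul,
      smul_smul, smul_smul]
    refine congrArg (· • _) ?_
    rw [pow_add, mul_inv, div_eq_mul_inv]
    ring
  rw [rt_eq h0 h2, rt_eq h1 h3, div_mul_cancel₀ _ (pow_ne_zero k hd)]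

end RK1

open RK1 in
theorem bRK1 (hID : St_ID) (hLOC : St_LOC) : St_RK1 := by
  intro n M _ σ _ T S s hA hS hT hp
  obtain ⟨a, ha⟩ := hS.nonempty
  obtain ⟨b, hb, hab⟩ := hS.exists_gt a
  obtain ⟨m, rfl⟩ := Nat.exists_eq_add_of_le hab.le
  have hm : 0 < m := by omega
  have hol : ∀ c ∈ S, M.All fun e z => ∀ i, HolN (fun w => s c e w i) z := fun c hc => (hT c hc).hol
  have fr : ∀ c ∈ S, M.All fun e z => ∀ i, (∃ᶠ w in 𝓝 z, s a e w i ≠ 0) →
      ∃ᶠ w in 𝓝 z, s c e w i ≠ 0 ∧ s a e w i ≠ 0 := fun c hc e he z hz i hi => by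
    obtain ⟨j, hj⟩ := hID n M σ T c _ (hT c hc) e he z hz
    refine ((fm (hol c hc e he z hz j) (hol a ha e he z hz i) hj hi).and_eventually
      ((hp c hc a ha).ev he hz)).mono fun w k => ⟨fun l => ?_, k.1.2⟩
    have := k.2 i j
    rw [l, zero_mul] at this
    exact mul_ne_zero k.1.1 k.1.2 this.symm
  have rel : ∀ k, 0 < k → a + (k + m) ∈ S → ∃ c : ℂ, M.All fun e z => ∀ i,
      (∃ᶠ w in 𝓝 z, s a e w i ≠ 0) → ∃ᶠ w in 𝓝 z, ∀ᶠ v in 𝓝 w, s (a + m) e v i ^ (k + m) -
        c * s (a + (k + m)) e v i ^ m * s a e v i ^ k = 0 := fun k hk hc => by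
    let Φ : M.Fam ℂ := fun e z =>
      rt (s (a + m) e z) (s a e z) ^ (k + m) / rt (s (a + (k + m)) e z) (s a e z) ^ m
    have inv : M.Inv Φ := fun e he e' he' x hx hx' => by
      have hd := ((mTR n M).2.1 e he e' he' x hx hx').2.1
      simp only [Φ]
      rw [law (hT _ hb) (hT a ha) (hp _ hb a ha) e he e' he' x hx hx',
        law (hT _ hc) (hT a ha) (hp _ hc a ha) e he e' he' x hx hx', mul_pow, mul_pow, ← pow_mul,
        ← pow_mul, mul_comm m, mul_div_mul_right _ _ (pow_ne_zero _ hd)]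
    have h1 : M.All fun e z => ∀ i, s (a + (k + m)) e z i ^ m * s a e z i ^ k ≠ 0 →
        M.ev Φ (e.symm z) = s (a + m) e z i ^ (k + m) /
          (s (a + (k + m)) e z i ^ m * s a e z i ^ k) := fun e he z hz i hi => by
      have i1 : s (a + (k + m)) e z i ≠ 0 := fun h => hi (by rw [h, zero_pow hm.ne', zero_mul])
      have i2 : s a e z i ≠ 0 := fun h => hi (by rw [h, zero_pow hk.ne', mul_zero])
      have i3 : s a e z ≠ 0 := fun h => i2 (congrFun h i)
      rw [inv.rep e he z hz]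
      simp only [Φ]
      rw [rt_eq i3 (eq_div (hp _ hb a ha e he z hz) i2),
        rt_eq i3 (eq_div (hp _ hc a ha e he z hz) i2), div_pow, div_pow, pow_add (s a e z i)]
      field_simp
    have h2 : M.All fun e z => ∀ i, HolN (fun w => s (a + m) e w i ^ (k + m)) z ∧
        HolN (fun w => s (a + (k + m)) e w i ^ m * s a e w i ^ k) z ∧
        ((∃ᶠ w in 𝓝 z, s a e w i ≠ 0) →
          ∃ᶠ w in 𝓝 z, s (a + (k + m)) e w i ^ m * s a e w i ^ k ≠ 0) := fun e he z hz i =>
      ⟨(hol _ hb e he z hz i).mono fun _ l => l.fun_pow _,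
        ((hol _ hc e he z hz i).and (hol a ha e he z hz i)).mono fun _ l =>
          (l.1.fun_pow _).fun_mul (l.2.fun_pow _), fun hi => (fr _ hc e he z hz i hi).mono
            fun _ l => mul_ne_zero (pow_ne_zero _ l.1) (pow_ne_zero _ l.2)⟩
    have h3 : MerM M (M.ev Φ) := fun e he z hz => by
      obtain ⟨i, hi⟩ := hID n M σ T a _ (hT a ha) e he z hz
      obtain ⟨k1, k2, k3⟩ := h2 e he z hz i
      exact ⟨_, _, k1, k2, k3 hi, (h1.ev he hz).mono fun w l => l i⟩
    obtain ⟨y, c, hy⟩ := hA _ h3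
    refine ⟨c, fun e he z hz i hi => ?_⟩
    obtain ⟨k1, k2, k3⟩ := h2 e he z hz i
    refine ((merid h3 hy e he z hz).and_eventually ((dn k2 (k3 hi)).and
      (k1.eventually_nhds.and (k2.eventually_nhds.and (h1.ev he hz).eventually_nhds)))).mono
        fun w l => ?_
    simp only [mul_assoc c]
    refine can ((l.2.2.1.and l.2.2.2.1).mono fun v r => r.1.fun_sub (r.2.const_mul c))
      l.2.2.2.1 l.2.1 ((l.1.and l.2.2.2.2).mono fun v r hv => ?_)
    rw [← r.1, r.2 i hv, div_mul_cancel₀ _ hv, sub_self]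
  have loc : M.All fun e z => ∃ u : E n → ℂ, HolN u z ∧
      ∀ᶠ w in 𝓝 z, s (a + m) e w = u w • s a e w := by
    intro e he z hz
    obtain ⟨i, hi⟩ := hID n M σ T a _ (hT a ha) e he z hz
    obtain ⟨r, hr, hU⟩ := Metric.isOpen_iff.1 e.open_target z hz
    have dd : ∀ c ∈ S, DifferentiableOn ℂ (fun w => s c e w i) (ball z r) := fun c hc w hw =>
      (hol c hc e he w (hU hw) i).self_of_nhds.differentiableWithinAt
    obtain ⟨u, u1, u2⟩ := hLOC n (ball z r) z _ _ m isOpen_ball (mem_ball_self hr) (dd _ hb)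
      (dd a ha) hi (Set.infinite_of_forall_exists_gt fun N => by
        obtain ⟨c, hc, hN⟩ := hS.exists_gt (a + (N + m))
        obtain ⟨k, rfl⟩ : ∃ k, c = a + (k + m) := ⟨c - a - m, by omega⟩
        obtain ⟨t, ht⟩ := rel k (by omega) hc
        obtain ⟨y, y1, y2⟩ := ((ht e he z hz i hi).and_eventually (ball_mem_nhds z hr)).exists
        refine ⟨k, ⟨fun w => t * s (a + (k + m)) e w i ^ m, ((dd _ hc).fun_pow m).const_mul t,
          fun w hw => sub_eq_zero.1 ?_⟩, by omega⟩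
        exact SV.H85.eq_zero_of_convex isOpen_ball (convex_ball z r) (((dd _ hb).fun_pow _).fun_sub
          ((((dd _ hc).fun_pow m).const_mul t).fun_mul ((dd a ha).fun_pow k))) y2 y1 hw)
    refine ⟨u, u1, (eventually_all.2 fun j => ?_).mono fun w l => funext l⟩
    refine (can (f := fun w => s (a + m) e w j - u w * s a e w j) (((hol _ hb e he z hz j).and
      (u1.and (hol a ha e he z hz j))).mono fun w l => l.1.fun_sub (l.2.1.fun_mul l.2.2))
      (hol a ha e he z hz i) hi ((u2.and ((hp _ hb a ha).ev he hz)).mono fun w l hw => ?_)).mono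
        fun w l => sub_eq_zero.1 l
    refine mul_right_cancel₀ hw ?_
    rw [sub_mul, ← l.2 i j, l.1, zero_mul]
    ring
  have nz : ∀ e ∈ M.C, ∀ x ∈ e.source, M.ev (s a) x ≠ 0 → s a e (e x) ≠ 0 := fun e he x hx h k =>
    h (zero_iff (hT a ha) _ (Mf.ch_mem x) e he x ((mTR n M).1 x).2 hx k)
  have loc' : M.All fun e z => ∀ u : E n → ℂ, (∀ᶠ w in 𝓝 z, s (a + m) e w = u w • s a e w) →
      ∀ᶠ y in 𝓝 (e.symm z), y ∈ {x | M.ev (s a) x ≠ 0} →
        rt (s (a + m) e (e y)) (s a e (e y)) = u (e y) := fun e he z hz u hu => by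
    refine (tr hz).2 ?_
    filter_upwards [hu, e.open_target.eventually_mem hz] with w w1 w2 w3
    have := nz e he _ (e.map_target w2) w3
    rw [e.right_inv w2] at this ⊢
    exact rt_eq this w1
  obtain ⟨t, t1, t2⟩ := KP.st_EXTD n M (kan M m) {x | M.ev (s a) x ≠ 0}
    (fun e x => rt (s (a + m) e (e x)) (s a e (e x))) (fun x => by
      obtain ⟨e, he, hs⟩ := M.cov x
      obtain ⟨i, hi⟩ := hID n M σ T a _ (hT a ha) e he _ (e.map_source hs)
      rw [mem_closure_iff_frequently, ← e.left_inv hs, tr' (e.map_source hs)]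
      refine (hi.and_eventually (e.open_target.eventually_mem (e.map_source hs))).mono
        fun w l k => l.1 ?_
      have := zero_iff (hT a ha) e he _ (Mf.ch_mem _) _ (e.map_target l.2) ((mTR n M).1 _).2 k
      rw [e.right_inv l.2] at this
      exact congrFun this i)
    (fun e he e' he' x hx hx' _ => (law (hT _ hb) (hT a ha) (hp _ hb a ha) e he e' he' x hx
      hx').trans (congrArg _ (mul_one _).symm))
    fun e he x hx => by
      obtain ⟨u, u1, u2⟩ := loc e he _ (e.map_source hx)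
      have := loc' e he _ (e.map_source hx) u u2
      rw [e.left_inv hx] at this
      exact ⟨u, u1.eventually_nhds.mono fun w l => ((mHOL n u w).2.2 l).1, this⟩
  have t3 : M.All fun e z => ∃ u : E n → ℂ, HolN u z ∧ s (a + m) e z = u z • s a e z ∧
      t e =ᶠ[𝓝 z] u :=
    fun e he z hz => by
      obtain ⟨u, u1, u2⟩ := loc e he z hz
      have := t2 e he _ (e.map_target hz) u
      rw [e.right_inv hz] at this
      exact ⟨u, u1, u2.self_of_nhds, this (u1.mono fun w l => l.continuousAt)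
        (loc' e he z hz u u2)⟩
  refine ⟨m, hm, t, ⟨⟨t1.sm, fun e he e' he' x hx hx' => (t1.cmp e he e' he' x hx hx').trans
    (congrArg _ (mul_one _))⟩, fun e he z hz => ?_⟩, ?_⟩
  · obtain ⟨u, u1, -, u3⟩ := t3 e he z hz
    exact u1.self_of_nhds.congr_of_eventuallyEq u3
  · obtain ⟨e, he, z, hz, h⟩ := (hT _ hb).nz
    obtain ⟨u, -, u2, u3⟩ := t3 e he z hz
    exact ⟨e, he, z, hz, fun k => h (by rw [u2, ← u3.self_of_nhds, k, zero_smul])⟩

end Pool.Agent.Lib.K3E
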