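import Pool.Agent.Lib.K3E.Blue
import Pool.Agent.Lib.ZK.Blue

/-! The weights given by the theorem on the Lelong numbers. -/

open scoped Classical Topology ContDiff ComplexOrder Matrix
open Set MeasureTheory Filter

noncomputable section

namespace Pool.Agent.Lib.K3E

open Pool.Agent.Lib.HS32

theorem bZW (hZ : ZK.St_ZK) (hKAN : St_KAN) : St_ZW := by
  intro n M _ H a hn hH hN ha
  have cr : M.Clo (-M.ric H) := ((mHES n M).2.2.2.2.2.2.2.2.1 H hH.toMet).neg
  have z0 : M.Sm fun _ => (0 : ℝ) := Mf.sm_const 0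
  have nef : ZK.Nef M H (-M.ric H) := fun e he => by
    obtain ⟨w, hw, hp⟩ := hN e he
    refine ⟨w, hw, (cr.add (hH.toClo.smul e)).add ((mHES n M).1 w hw), fun c hc z hz => ?_⟩
    rw [show -M.ric H + e • H + M.hs w = M.gE H e w by rw [Mf.gE]; abel]
    exact hp c hc z hz
  have klt : ZK.Klt M H (-M.ric H) := by
    refine ⟨(M.mu H).real univ, 2, one_lt_two, fun η hη => ⟨fun _ => 0, fun _ => 0, z0, z0,
      fun _ => measureReal_nonneg, fun _ => ⟨le_rfl, measureReal_nonneg⟩, fun c hc z hz => ?_,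
      by simp, by simpa using hη.le⟩⟩
    have := ((mLAP n M _ _ z0 z0).1 0 c hc z hz).1
    simp only [Pi.add_apply, Pi.zero_apply, this, ZK.fm, zero_smul, neg_add_cancel,
      add_zero, sub_zero]
    exact Matrix.PosSemidef.zero
  obtain ⟨A, h1, -, h3⟩ := hZ n M H _ hn hH cr nef klt
  have k0 : (0 : ℝ) < (a : ℝ) - 1 := by
    have : (2 : ℝ) ≤ a := by exact_mod_cast ha
    linarith
  have n0 : (0 : ℝ) < n := Nat.cast_pos.2 hn
  obtain ⟨e₀, he₀, C, hC⟩ := h3 (2 * n * ((a : ℝ) - 1)) (by positivity)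
  refine ⟨C, fun δ hδ => ?_⟩
  have e0 : 0 < min e₀ (δ / ((a : ℝ) - 1)) := lt_min he₀.1 (by positivity)
  have E := h1 _ ⟨e0, (min_le_left _ _).trans he₀.2⟩
  refine ⟨((a : ℝ) - 1) * min e₀ (δ / ((a : ℝ) - 1)), ⟨by positivity, ?_⟩,
    fun x => ((a : ℝ) - 1) * A (min e₀ (δ / ((a : ℝ) - 1))) x, E.sm.const_mul _,
    fun x => mul_nonpos_of_nonneg_of_nonpos k0.le (E.np x), fun c hc z hz => ?_, ?_⟩
  · rw [mul_comm]
    exact (le_div_iff₀ k0).1 (min_le_right _ _)
  · have p := Mf.psd_rsmul (E.kae.pos c hc z hz).posSemidef k0.le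
    have q1 := (hKAN n M H a hH.toMet).2 c hc z hz
    have q2 := ((mLAP n M _ _ E.sm E.sm).1 ((a : ℝ) - 1) c hc z hz).2.2.2.1
    simp only [Pi.add_apply, Pi.zero_apply, Pi.smul_apply, Pi.neg_apply, q1, q2, sub_zero] at p ⊢
    refine (congrArg _ ?_).mp p
    module
  · simpa only [mul_assoc] using hC _ ⟨e0, min_le_left _ _⟩

end Pool.Agent.Lib.K3E
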