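import Pool.Agent.Lib.K3E.B_ALT
import Pool.Agent.Lib.K3E.B_CRK
import Pool.Agent.Lib.K3E.B_FRM
import Pool.Agent.Lib.K3E.B_ID
import Pool.Agent.Lib.K3E.B_IDX
import Pool.Agent.Lib.K3E.B_KAN
import Pool.Agent.Lib.K3E.B_LOC
import Pool.Agent.Lib.K3E.B_MER
import Pool.Agent.Lib.K3E.B_RK1
import Pool.Agent.Lib.K3E.B_STAR
import Pool.Agent.Lib.K3E.B_ZW
import Pool.Agent.Lib.HLK.All
import Pool.Agent.Lib.IDX.All
import Pool.Agent.Lib.ZK.All2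

/-! Project k3e: assembly. -/

namespace Pool.Agent.Lib.K3E

theorem aFRM : St_FRM := bFRM HLK.aFK3 (bSTAR HLK.aFK1 HLK.aFK2) bALT

theorem aK3 : St_K3 :=
  top HLK.aHL bKAN (bZW ZK.zk2 bKAN) (bIDX IDX.aIDX bKAN) bCRK (bRK1 bID bLOC) aFRM bMER

end Pool.Agent.Lib.K3E
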