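import Pool.Agent.Lib.HW.SDefs
import Pool.Agent.Lib.KP.SDefs

/-! Definitions used in the statement: holomorphic forms and meromorphic functions. -/

open scoped Matrix Topology

noncomputable section

namespace Pool.Agent.Lib.K3E

open Pool.Agent.Lib.SV Pool.Agent.Lib.HS Pool.Agent.Lib.KP

variable (n : ℕ) (X : Type) [TopologicalSpace X] [ChartedSpace (E n) X]

/-- Holomorphic `p`-forms: `α y` is the value at `y` in the preferred chart of `y`. -/
def Forms (p : ℕ) : Submodule ℂ (X → E n [⋀^Fin p]→ₗ[ℂ] ℂ) where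
  carrier := {α | ∀ (x : X) (v : Fin p → E n), DifferentiableAt ℂ
    (fun z => α ((chartAt (E n) x).symm z) fun i => jacM x z *ᵥ v i) (chartAt (E n) x x)}
  add_mem' := fun hs ht x v => (hs x v).fun_add (ht x v)
  zero_mem' := fun _ _ => differentiableAt_const 0
  smul_mem' := fun c _ hs x v => (hs x v).const_mul c

variable {X}

/-- `f` is meromorphic: near every point it is a quotient `a / b` of holomorphic functions off the
zeros of `b`, and `b` is not identically zero. -/
def Mero (f : X → ℂ) : Prop := ∀ y, ∃ a b : X → ℂ, (∃ᶠ x in 𝓝 y, b x ≠ 0) ∧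
  ∀ᶠ x in 𝓝 y, HolAt n 0 a x ∧ HolAt n 0 b x ∧ (b x ≠ 0 → f x = a x / b x)

end Pool.Agent.Lib.K3E
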